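import Pool.Agent.Q254.PS.Sum

/-!
# A fourth perfect square among the sums `p_n + p_{n+1} + ... + p_{2n}`

`Nat.nth Nat.Prime (k - 1)` is the `k`-th prime `p_k` (`p_1 = 2`).  For `n = 111008771` one has
`p_n = 2274652151`, `p_{2n} = 4711447171` and
`p_n + ... + p_{2n} = 387024194082134596 = 622112686 ^ 2`; so the sum `a(n)` is a perfect square
for an `n` which is not one of 3, 6, 4072.

The numbers and the sums of the primes up to the two bounds are computed inside the kernel with
Legendre's recursion and a table of the primes below 2818048, which is checked against a sieve.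
-/

namespace Pool.Agent.Results.MP_dcd7a9_nt.PrimeSumSquare

open Finset Pool.Agent.Q254.PS

set_option maxRecDepth 100000 in
theorem value : ∑ k ∈ Icc 111008771 (2 * 111008771), Nat.nth Nat.Prime (k - 1) =
    387024194082134596 :=
  gen (x1 := 2274652151) (x2 := 4711447171) (by norm_num) x1_prime (by norm_num)
    (by rw [O1C]) (by rw [O2C]) (by rw [O1S, O2S])

/-- The sum `p_n + ... + p_{2n}` is the square of 622112686 for `n = 111008771`; hence it is not
true that for `n ≥ 1` this sum is a perfect square exactly for `n = 3, 6, 4072`. -/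
theorem result :
    (∑ k ∈ Icc 111008771 (2 * 111008771), Nat.nth Nat.Prime (k - 1) = 622112686 ^ 2) ∧
    ¬ ∀ n : ℕ, 1 ≤ n →
      ((∃ m : ℕ, ∑ k ∈ Icc n (2 * n), Nat.nth Nat.Prime (k - 1) = m ^ 2) ↔
        (n = 3 ∨ n = 6 ∨ n = 4072)) := by
  have h : ∑ k ∈ Icc 111008771 (2 * 111008771), Nat.nth Nat.Prime (k - 1) =
      622112686 ^ 2 := by
    rw [value]; norm_num
  refine ⟨h, fun H => ?_⟩
  have h1 := (H 111008771 (by norm_num)).1 ⟨_, h⟩
  omega

end Pool.Agent.Results.MP_dcd7a9_nt.PrimeSumSquare
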